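import Pool.Agent.H26.SemDefs
import Pool.Agent.H26.SemG
import Pool.Agent.H26.SemT

set_option autoImplicit false

namespace Pool.Agent.Results.MP_822856_al.ManySolutions

open Pool.Agent.H26.Sem

theorem result :
    -- the solutions of Q1 that are positive cones of totally ordered abelian groups
    (∀ (G : Type) [AddCommGroup G] [LinearOrder G] [IsOrderedAddMonoid G] [Nontrivial G],
      SolvesQ1 (posCone G) ↔ ∃ V : Submodule ℚ ℝ, (1 : ℝ) ∈ V ∧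
        (∀ r : ℝ, (∀ x ∈ V, r * x ∈ V) → ∃ q : ℚ, r = q) ∧
          Nonempty (posCone G ≃+ posPart V)) ∧
    -- the solutions of Q2 that are nonnegative cones of totally ordered abelian groups
    (∀ (G : Type) [AddCommGroup G] [LinearOrder G] [IsOrderedAddMonoid G] [Nontrivial G],
      SolvesQ2 (nonnegCone G) ↔ ∃ V : Submodule ℚ ℝ, (1 : ℝ) ∈ V ∧
        (∀ r : ℝ, (∀ x ∈ V, r * x ∈ V) → ∃ q : ℚ, r = q) ∧
          Nonempty (nonnegCone G ≃+ nonnegPart V)) ∧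
    -- when two of the model semigroups are isomorphic
    (∀ V W : Submodule ℚ ℝ, (1 : ℝ) ∈ V →
      (Nonempty (posPart V ≃+ posPart W) ↔ ∃ r : ℝ, 0 < r ∧ ∀ x : ℝ, x ∈ V ↔ r * x ∈ W)) ∧
    -- `2^𝔠` pairwise non-isomorphic solutions of Q1, all inside `(ℝ_{>0}, +)`
    (∃ S : Set ℝ → AddSubsemigroup ℝ, (∀ A, ∀ x ∈ S A, 0 < x) ∧ (∀ A, SolvesQ1 (S A)) ∧
      ∀ A B, A ≠ B → IsEmpty (S A ≃+ S B)) ∧
    -- `2^𝔠` pairwise non-isomorphic solutions of Q2, all inside `(ℝ_{≥0}, +)`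
    (∃ S : Set ℝ → AddSubsemigroup ℝ, (∀ A, ∀ x ∈ S A, 0 ≤ x) ∧ (∀ A, SolvesQ2 (S A)) ∧
      ∀ A B, A ≠ B → IsEmpty (S A ≃+ S B)) ∧
    -- the solutions of Q1 with a homomorphism to `(ℚ_{>0}, +)`
    (∀ (S : Type) [AddCommSemigroup S], SolvesQ1 S → Nonempty (AddHom S {q : ℚ // 0 < q}) →
      Nonempty (S ≃+ {q : ℚ // 0 < q})) ∧
    -- the solutions of Q2 with a nonzero homomorphism to `(ℚ_{≥0}, +)`
    (∀ (S : Type) [AddCommSemigroup S], SolvesQ2 S →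
      (∃ h : AddHom S {q : ℚ // 0 ≤ q}, ∃ s, h s ≠ 0) → Nonempty (S ≃+ {q : ℚ // 0 ≤ q})) := by
  obtain ⟨x, hx⟩ := exists_algInd
  refine ⟨fun G => ordered_iff' G, fun G => ordered2_iff' G, iso1_iff, fam_pos x hx,
    fam_nonneg x hx, ?_, ?_⟩
  · rintro S _ ⟨e⟩ ⟨h⟩
    exact iso_of_hom e h
  · rintro S _ ⟨e⟩ ⟨h, hne⟩
    exact iso_of_hom0 e h hne

end Pool.Agent.Results.MP_822856_al.ManySolutions
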